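import Pool.Agent.helper42.CQ.SpecC

/-! # cq:CPS: the components -/

set_option autoImplicit false

namespace Pool.Agent.helper42.CQ

open Finset Pool.Agent.helper24.CG

theorem CPS (hREL : REL_stmt) : CPS_stmt := by
  classical
  intro N M s K H hM
  obtain ⟨-, hself, hsub, heq, hdis, -, -, -, hGK, -, hGc, -⟩ := hREL N M K hM
  have hGs : ∀ z, z ∈ Gs M K s H ↔ z ∈ K ∧ ((∃ u ∈ cmp M K H z, WF M K H u) ∨ s ≤ (cmp M K H z).card) := by
    intro z
    unfold Gs
    exact Finset.mem_filter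
  set Gw : Finset (Fin N) := K.filter (fun v => ∃ u ∈ cmp M K H v, WF M K H u) with hGw
  have hGwm : ∀ z, z ∈ Gw ↔ z ∈ K ∧ ∃ u ∈ cmp M K H z, WF M K H u := by
    intro z
    rw [hGw]
    exact Finset.mem_filter
  set Ct : Finset (Finset (Fin N)) := ((Gs M K s H).filter (fun v => v ∉ Gw)).image (cmp M K H) with hCt
  have hCm : ∀ C, C ∈ Ct ↔ ∃ v, v ∈ Gs M K s H ∧ v ∉ Gw ∧ cmp M K H v = C := by
    intro C
    rw [hCt, Finset.mem_image]
    constructor
    · rintro ⟨v, hv, h⟩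
      rw [Finset.mem_filter] at hv
      exact ⟨v, hv.1, hv.2, h⟩
    · rintro ⟨v, h1, h2, h⟩
      exact ⟨v, Finset.mem_filter.2 ⟨h1, h2⟩, h⟩
  refine ⟨Gw, Ct.toList, ?_, ?_, ?_, ?_⟩
  · apply (Finset.nodup_toList Ct).pairwise_of_forall_ne
    intro C hC C' hC' hne
    rw [Finset.mem_toList, hCm] at hC hC'
    obtain ⟨v, h1, -, rfl⟩ := hC
    obtain ⟨v', h1', -, rfl⟩ := hC'
    apply hdis H v' v (hGK _ _ h1') (hGK _ _ h1)
    intro h
    exact hne (heq H v' v (hGK _ _ h1') h)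
  · intro C hC
    rw [Finset.mem_toList, hCm] at hC
    obtain ⟨v, h1, h2, rfl⟩ := hC
    have hvK := hGK _ _ h1
    refine ⟨?_, ?_, ?_⟩
    · rcases ((hGs v).1 h1).2 with h | h
      · exact absurd ((hGwm v).2 ⟨hvK, h⟩) h2
      · exact h
    · rw [Finset.disjoint_left]
      intro w hw hw'
      apply h2
      obtain ⟨-, u, hu, hWF⟩ := (hGwm w).1 hw
      rw [heq H v w hvK hw'] at hu
      exact (hGwm v).2 ⟨hvK, u, hu, hWF⟩
    · intro w hw
      exact ⟨hsub H v hw, (heq H v w hvK hw).symm⟩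
  · intro v
    constructor
    · intro hv
      by_cases h : v ∈ Gw
      · exact Or.inl h
      · right
        refine ⟨cmp M K H v, ?_, hself H v (hGK _ _ hv)⟩
        rw [Finset.mem_toList, hCm]
        exact ⟨v, hv, h, rfl⟩
    · rintro (h | ⟨C, hC, hvC⟩)
      · obtain ⟨h1, h2⟩ := (hGwm v).1 h
        exact (hGs v).2 ⟨h1, Or.inl h2⟩
      · rw [Finset.mem_toList, hCm] at hC
        obtain ⟨v', h1, -, rfl⟩ := hC
        exact hGc s H v' h1 hvC
  · intro v hv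
    obtain ⟨h1, u, hu, hWF⟩ := (hGwm v).1 hv
    refine ⟨u, hsub H v hu, hWF, ?_⟩
    rw [heq H v u h1 hu]
    exact hself H v h1

end Pool.Agent.helper42.CQ
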